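import Pool.Agent.Helper31.CY.St4

set_option autoImplicit false

open Set Topology Filter

namespace Pool.Agent.Helper7.CY
open Pool.Agent.Helper31.CY

/-- a function with positive derivative at its zeros is nonnegative after a zero -/
private lemma nonneg_after (f f' : ℝ → ℝ) (hf : ∀ x, HasDerivAt f (f' x) x)
    (hp : ∀ x, f x = 0 → 0 < f' x) (a b : ℝ) (ha : f a = 0) :
    ∀ x ∈ Icc a b, 0 ≤ f x := by
  have h := image_le_of_deriv_right_lt_deriv_boundary (f := fun x => - f x)
    (f' := fun x => - f' x) (a := a) (b := b)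
    (fun x _ => (hf x).neg.continuousAt.continuousWithinAt)
    (fun x _ => (hf x).neg.hasDerivWithinAt)
    (B := fun _ => 0) (B' := fun _ => 0) (by simp [ha]) (fun x => hasDerivAt_const x (0:ℝ))
    (fun x _ hx => by
      have := hp x (by linarith)
      linarith)
  intro x hx
  have := h hx
  linarith

private lemma one_zero (f f' : ℝ → ℝ) (hf : ∀ x, HasDerivAt f (f' x) x)
    (hp : ∀ x, f x = 0 → 0 < f' x) (a b : ℝ) (hab : a < b) (ha : f a = 0) (hb : f b = 0) :
    False := by
  have h1 := nonneg_after f f' hf hp a b ha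
  have h2 := nonneg_after (fun x => - f (-x)) (fun x => f' (-x))
    (fun x => by
      have h3 := (hf (-x)).scomp x (hasDerivAt_neg x)
      have h4 := h3.neg
      have h5 : HasDerivAt (fun x => - f (-x)) (-((-1:ℝ) • f' (-x))) x := h4
      have h6 : -((-1:ℝ) • f' (-x)) = f' (-x) := by simp
      rwa [h6] at h5)
    (fun x hx => hp (-x) (by linarith)) (-b) (-a) (by simp [hb])
  have h3 : ∀ x ∈ Icc a b, f x = 0 := by
    intro x hx
    have h4 := h1 x hx
    have h5 := h2 (-x) ⟨by linarith [hx.2], by linarith [hx.1]⟩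
    simp only [neg_neg] at h5
    linarith
  obtain ⟨c, hc, hc'⟩ := exists_hasDerivAt_eq_zero hab
    (fun x _ => (hf x).continuousAt.continuousWithinAt) (ha.trans hb.symm) (fun x _ => hf x)
  have := hp c (h3 c ⟨hc.1.le, hc.2.le⟩)
  linarith

private lemma key_pos (k b : ℝ) (hk : 0 < k)
    (hN : Real.sinh (k * Real.cosh b) + k * Real.sinh b * Real.cosh b * Real.sinh (b + k * Real.cosh b) = 0) :
    0 < Real.cosh (k * Real.cosh b) * (k * Real.sinh b) +
      (k * Real.cosh b * Real.cosh b + k * Real.sinh b * Real.sinh b) * Real.sinh (b + k * Real.cosh b) +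
      k * Real.sinh b * Real.cosh b * (Real.cosh (b + k * Real.cosh b) * (1 + k * Real.sinh b)) := by
  have hc : 0 < Real.cosh b := Real.cosh_pos b
  have hC : 0 < Real.cosh (b + k * Real.cosh b) := Real.cosh_pos _
  have hsk : 0 < Real.sinh (k * Real.cosh b) := Real.sinh_pos_iff.2 (by positivity)
  have hb : b < 0 := by
    by_contra hb
    have hb : 0 ≤ b := not_lt.1 hb
    have h1 : 0 ≤ Real.sinh b := Real.sinh_nonneg_iff.2 hb
    have h2 : 0 ≤ Real.sinh (b + k * Real.cosh b) := Real.sinh_nonneg_iff.2 (by positivity)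
    have h3 : 0 ≤ k * Real.sinh b * Real.cosh b * Real.sinh (b + k * Real.cosh b) := by positivity
    linarith
  have hs : Real.sinh b < 0 := Real.sinh_neg_iff.2 hb
  have hS : 0 < Real.sinh (b + k * Real.cosh b) := by
    by_contra h
    have h : Real.sinh (b + k * Real.cosh b) ≤ 0 := not_lt.1 h
    have h3 : 0 ≤ k * Real.cosh b * (Real.sinh b * Real.sinh (b + k * Real.cosh b)) :=
      mul_nonneg (by positivity) (mul_nonneg_of_nonpos_of_nonpos hs.le h)
    have h4 : k * Real.sinh b * Real.cosh b * Real.sinh (b + k * Real.cosh b) =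
      k * Real.cosh b * (Real.sinh b * Real.sinh (b + k * Real.cosh b)) := by ring
    linarith
  have e1 : k * Real.cosh b = (b + k * Real.cosh b) - b := by ring
  have e2 : Real.sinh (k * Real.cosh b) =
      Real.sinh (b + k * Real.cosh b) * Real.cosh b - Real.cosh (b + k * Real.cosh b) * Real.sinh b := by
    rw [← Real.sinh_sub, ← e1]
  have e3 : Real.cosh (k * Real.cosh b) =
      Real.cosh (b + k * Real.cosh b) * Real.cosh b - Real.sinh (b + k * Real.cosh b) * Real.sinh b := by
    rw [← Real.cosh_sub, ← e1]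
  rw [e2] at hN
  rw [e3]
  have q1 : Real.cosh b ^ 2 = Real.sinh b ^ 2 + 1 := Real.cosh_sq b
  generalize Real.sinh (b + k * Real.cosh b) = S at *
  generalize Real.cosh (b + k * Real.cosh b) = C at *
  generalize Real.sinh b = s at *
  generalize Real.cosh b = c at *
  -- multiply by s S
  have key : (((C * c - S * s) * (k * s) + (k * c * c + k * s * s) * S +
      k * s * c * (C * (1 + k * s))) * S) = k * ((s * C) ^ 2 + (s * C) * (c * S) + (c * S) ^ 2) := by
    linear_combination (k * s * C) * hN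
  have hpos : 0 < k * ((s * C) ^ 2 + (s * C) * (c * S) + (c * S) ^ 2) := by
    have h1 : 0 < c * S := mul_pos hc hS
    have h2 : 0 < (s * C) ^ 2 + (s * C) * (c * S) + (c * S) ^ 2 := by
      nlinarith [sq_nonneg (s * C + c * S / 2), mul_pos h1 h1]
    positivity
  rw [← key] at hpos
  exact (pos_iff_pos_of_mul_pos hpos).2 hS

private lemma deriv_N (k a : ℝ) :
    HasDerivAt (fun a : ℝ => Real.sinh (k * Real.cosh a) +
      k * Real.sinh a * Real.cosh a * Real.sinh (a + k * Real.cosh a))
    (Real.cosh (k * Real.cosh a) * (k * Real.sinh a) +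
      (k * Real.cosh a * Real.cosh a + k * Real.sinh a * Real.sinh a) * Real.sinh (a + k * Real.cosh a) +
      k * Real.sinh a * Real.cosh a * (Real.cosh (a + k * Real.cosh a) * (1 + k * Real.sinh a))) a := by
  have h1 : HasDerivAt (fun a : ℝ => k * Real.cosh a) (k * Real.sinh a) a :=
    (Real.hasDerivAt_cosh a).const_mul k
  have h2 : HasDerivAt (fun a : ℝ => a + k * Real.cosh a) (1 + k * Real.sinh a) a :=
    (hasDerivAt_id' a).add h1
  have h3 : HasDerivAt (fun a : ℝ => k * Real.sinh a) (k * Real.cosh a) a :=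
    (Real.hasDerivAt_sinh a).const_mul k
  have h4 : HasDerivAt (fun a : ℝ => k * Real.sinh a * Real.cosh a)
      (k * Real.cosh a * Real.cosh a + k * Real.sinh a * Real.sinh a) a :=
    h3.mul (Real.hasDerivAt_cosh a)
  have h5 := h1.sinh
  have h6 := h2.sinh
  have h7 := h5.add (h4.mul h6)
  refine h7.congr_deriv ?_
  ring

private lemma deriv_G (k a : ℝ) :
    HasDerivAt (fun a : ℝ => Real.cosh (a + k * Real.cosh a) / Real.cosh a)
    ((Real.sinh (k * Real.cosh a) +
      k * Real.sinh a * Real.cosh a * Real.sinh (a + k * Real.cosh a)) / Real.cosh a ^ 2) a := by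
  have h1 : HasDerivAt (fun a : ℝ => k * Real.cosh a) (k * Real.sinh a) a :=
    (Real.hasDerivAt_cosh a).const_mul k
  have h2 : HasDerivAt (fun a : ℝ => a + k * Real.cosh a) (1 + k * Real.sinh a) a :=
    (hasDerivAt_id' a).add h1
  have h3 := h2.cosh.div (Real.hasDerivAt_cosh a) (Real.cosh_pos a).ne'
  refine h3.congr_deriv ?_
  have e1 : k * Real.cosh a = (a + k * Real.cosh a) - a := by ring
  have e2 : Real.sinh (k * Real.cosh a) =
      Real.sinh (a + k * Real.cosh a) * Real.cosh a - Real.cosh (a + k * Real.cosh a) * Real.sinh a := by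
    rw [← Real.sinh_sub, ← e1]
  rw [e2]
  congr 1
  ring

private lemma cat_eq (r0 m h : ℝ) : cat r0 m h =
    r0 * (Real.cosh (Real.arsinh m + h / r0 * Real.cosh (Real.arsinh m)) /
      Real.cosh (Real.arsinh m)) := by
  unfold cat
  rw [Real.cosh_arsinh]
  have e : h * Real.sqrt (1 + m ^ 2) / r0 + Real.arsinh m =
      Real.arsinh m + h / r0 * Real.sqrt (1 + m ^ 2) := by ring
  rw [e]
  ring

private lemma three (r0 r1 h : ℝ) (hr0 : 0 < r0) (hh : 0 < h) (x y z : ℝ)
    (hx : cat r0 x h = r1) (hy : cat r0 y h = r1) (hz : cat r0 z h = r1) (hxy : x < y)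
    (hyz : y < z) : False := by
  have hk : 0 < h / r0 := div_pos hh hr0
  rw [cat_eq] at hx hy hz
  have h1 : Real.arsinh x < Real.arsinh y := Real.arsinh_lt_arsinh.2 hxy
  have h2 : Real.arsinh y < Real.arsinh z := Real.arsinh_lt_arsinh.2 hyz
  have e1 := mul_left_cancel₀ hr0.ne' (hx.trans hy.symm)
  have e2 := mul_left_cancel₀ hr0.ne' (hy.trans hz.symm)
  obtain ⟨b1, hb1, hb1'⟩ := exists_hasDerivAt_eq_zero h1
    (f := fun a : ℝ => Real.cosh (a + h / r0 * Real.cosh a) / Real.cosh a)
    (fun a _ => (deriv_G (h / r0) a).continuousAt.continuousWithinAt) e1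
    (fun a _ => deriv_G (h / r0) a)
  obtain ⟨b2, hb2, hb2'⟩ := exists_hasDerivAt_eq_zero h2
    (f := fun a : ℝ => Real.cosh (a + h / r0 * Real.cosh a) / Real.cosh a)
    (fun a _ => (deriv_G (h / r0) a).continuousAt.continuousWithinAt) e2
    (fun a _ => deriv_G (h / r0) a)
  have z1 := (div_eq_zero_iff.1 hb1').resolve_right (pow_pos (Real.cosh_pos b1) 2).ne'
  have z2 := (div_eq_zero_iff.1 hb2').resolve_right (pow_pos (Real.cosh_pos b2) 2).ne'
  exact one_zero _ _ (deriv_N (h / r0)) (fun b hb => key_pos (h / r0) b hk hb) b1 b2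
    (hb1.2.trans hb2.1) z1 z2

theorem hCQ1 : StCQ1 := by
  intro r0 r1 h hr0 hh
  by_contra hcon
  have hcon : 2 < {m : ℝ | cat r0 m h = r1}.encard := not_le.1 hcon
  have h1 : 1 < {m : ℝ | cat r0 m h = r1}.encard := lt_trans (by norm_num) hcon
  obtain ⟨a, b, ha, hb, hab⟩ := Set.one_lt_encard_iff.1 h1
  have h2 : ∃ c ∈ {m : ℝ | cat r0 m h = r1}, c ∉ ({a, b} : Set ℝ) := by
    by_contra hn
    push Not at hn
    have h3 : {m : ℝ | cat r0 m h = r1}.encard ≤ ({a, b} : Set ℝ).encard :=
      Set.encard_le_encard hn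
    rw [Set.encard_pair hab] at h3
    exact absurd h3 (not_le.2 hcon)
  obtain ⟨c, hc, hcn⟩ := h2
  have hca : c ≠ a := fun h => hcn (by simp [h])
  have hcb : c ≠ b := fun h => hcn (by simp [h])
  have ha : cat r0 a h = r1 := ha
  have hb : cat r0 b h = r1 := hb
  have hc : cat r0 c h = r1 := hc
  rcases lt_or_gt_of_ne hab with h1 | h1 <;> rcases lt_or_gt_of_ne hca with h2 | h2 <;>
    rcases lt_or_gt_of_ne hcb with h3 | h3
  · exact three r0 r1 h hr0 hh c a b hc ha hb h2 h1
  · exact absurd (h2.trans h1) (not_lt.2 h3.le)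
  · exact three r0 r1 h hr0 hh a c b ha hc hb h2 h3
  · exact three r0 r1 h hr0 hh a b c ha hb hc h1 h3
  · exact three r0 r1 h hr0 hh c b a hc hb ha h3 h1
  · exact three r0 r1 h hr0 hh b c a hb hc ha h3 h2
  · exact absurd (h1.trans h2) (not_lt.2 h3.le)
  · exact three r0 r1 h hr0 hh b a c hb ha hc h1 h2

end Pool.Agent.Helper7.CY
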