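import Pool.Agent.Helper31.CY.St1

/-! Module MDT of project CY. -/

set_option autoImplicit false

open Set Topology Filter

namespace Pool.Agent.Helper7.CY

open Pool.Agent.Helper31.CY

private theorem pt0 (a b c : ℝ) : pt a b c 0 = a := by simp [pt]
private theorem pt1 (a b c : ℝ) : pt a b c 1 = b := by simp [pt]
private theorem pt2 (a b c : ℝ) : pt a b c 2 = c := by simp [pt]

private def Q (x y z : ℝ) : Prop :=
  (y = z ∧ |y| ≤ x) ∨ (y = -z ∧ |y| ≤ -x) ∨ (x = z ∧ |x| ≤ y) ∨ (x = -z ∧ |x| ≤ -y) ∨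
    (x = y ∧ |x| ≤ z) ∨ (x = -y ∧ |x| ≤ -z)

private theorem ext3 {v w : E3} (h0 : v 0 = w 0) (h1 : v 1 = w 1) (h2 : v 2 = w 2) : v = w := by
  ext i
  fin_cases i
  · exact h0
  · exact h1
  · exact h2

private theorem Q_of_sector {i j : Fin 4} (hij : i ≠ j) {v : E3} (hv : v ∈ sector (tv i) (tv j)) :
    Q (v 0) (v 1) (v 2) := by
  obtain ⟨s, t, hs, ht, rfl⟩ := hv
  have key : ∀ k : Fin 3, (s • tv i + t • tv j) k = s * tv i k + t * tv j k := fun k => rfl
  rw [key, key, key]
  have e0 : tv 0 = pt 1 1 1 := rfl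
  have e1 : tv 1 = pt 1 (-1) (-1) := rfl
  have e2 : tv 2 = pt (-1) 1 (-1) := rfl
  have e3 : tv 3 = pt (-1) (-1) 1 := rfl
  unfold Q
  fin_cases i <;> fin_cases j <;>
    simp only [Fin.zero_eta, Fin.mk_one, Fin.reduceFinMk, e0, e1, e2, e3, pt0, pt1, pt2] at hij ⊢
  · exact absurd rfl hij
  · left; exact ⟨by first | trivial | ring, abs_le.2 ⟨by linarith, by linarith⟩⟩
  · right; right; left; exact ⟨by first | trivial | ring, abs_le.2 ⟨by linarith, by linarith⟩⟩
  · right; right; right; right; left; exact ⟨by first | trivial | ring, abs_le.2 ⟨by linarith, by linarith⟩⟩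
  · left; exact ⟨by first | trivial | ring, abs_le.2 ⟨by linarith, by linarith⟩⟩
  · exact absurd rfl hij
  · right; right; right; right; right; exact ⟨by first | trivial | ring, abs_le.2 ⟨by linarith, by linarith⟩⟩
  · right; right; right; left; exact ⟨by first | trivial | ring, abs_le.2 ⟨by linarith, by linarith⟩⟩
  · right; right; left; exact ⟨by first | trivial | ring, abs_le.2 ⟨by linarith, by linarith⟩⟩
  · right; right; right; right; right; exact ⟨by first | trivial | ring, abs_le.2 ⟨by linarith, by linarith⟩⟩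
  · exact absurd rfl hij
  · right; left; exact ⟨by first | trivial | ring, abs_le.2 ⟨by linarith, by linarith⟩⟩
  · right; right; right; right; left; exact ⟨by first | trivial | ring, abs_le.2 ⟨by linarith, by linarith⟩⟩
  · right; right; right; left; exact ⟨by first | trivial | ring, abs_le.2 ⟨by linarith, by linarith⟩⟩
  · right; left; exact ⟨by first | trivial | ring, abs_le.2 ⟨by linarith, by linarith⟩⟩
  · exact absurd rfl hij

private theorem mk_mem {v : E3} {a b c a' b' c' : ℝ} (s t : ℝ) (hs : 0 ≤ s) (ht : 0 ≤ t)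
    (h0 : v 0 = s * a + t * a') (h1 : v 1 = s * b + t * b') (h2 : v 2 = s * c + t * c') :
    v ∈ sector (pt a b c) (pt a' b' c') := by
  refine ⟨s, t, hs, ht, ?_⟩
  have key : ∀ k : Fin 3, (s • pt a b c + t • pt a' b' c') k = s * pt a b c k + t * pt a' b' c' k :=
    fun k => rfl
  refine ext3 ?_ ?_ ?_
  · rw [key, pt0, pt0, h0]
  · rw [key, pt1, pt1, h1]
  · rw [key, pt2, pt2, h2]

private theorem mem_T (v : E3) : v ∈ Tcone ↔ Q (v 0) (v 1) (v 2) := by
  constructor
  · rintro ⟨i, j, hij, hv⟩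
    exact Q_of_sector hij hv
  · rintro (⟨h, h'⟩ | ⟨h, h'⟩ | ⟨h, h'⟩ | ⟨h, h'⟩ | ⟨h, h'⟩ | ⟨h, h'⟩)
    · obtain ⟨h3, h4⟩ := abs_le.1 h'
      exact ⟨0, 1, by decide, mk_mem ((v 0 + v 1) / 2) ((v 0 - v 1) / 2) (by linarith)
        (by linarith) (by ring) (by ring) (by rw [← h]; ring)⟩
    · obtain ⟨h3, h4⟩ := abs_le.1 h'
      exact ⟨2, 3, by decide, mk_mem ((-v 0 + v 1) / 2) ((-v 0 - v 1) / 2) (by linarith)
        (by linarith) (by ring) (by ring) (by rw [h]; ring)⟩
    · obtain ⟨h3, h4⟩ := abs_le.1 h'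
      exact ⟨0, 2, by decide, mk_mem ((v 1 + v 0) / 2) ((v 1 - v 0) / 2) (by linarith)
        (by linarith) (by ring) (by ring) (by rw [← h]; ring)⟩
    · obtain ⟨h3, h4⟩ := abs_le.1 h'
      exact ⟨1, 3, by decide, mk_mem ((-v 1 + v 0) / 2) ((-v 1 - v 0) / 2) (by linarith)
        (by linarith) (by ring) (by ring) (by rw [h]; ring)⟩
    · obtain ⟨h3, h4⟩ := abs_le.1 h'
      exact ⟨0, 3, by decide, mk_mem ((v 2 + v 0) / 2) ((v 2 - v 0) / 2) (by linarith)
        (by linarith) (by ring) (by rw [← h]; ring) (by ring)⟩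
    · obtain ⟨h3, h4⟩ := abs_le.1 h'
      exact ⟨1, 2, by decide, mk_mem ((-v 2 + v 0) / 2) ((-v 2 - v 0) / 2) (by linarith)
        (by linarith) (by ring) (by rw [h]; ring) (by ring)⟩

private theorem Q_smul {x y z l : ℝ} (hl : 0 ≤ l) (h : Q x y z) : Q (l * x) (l * y) (l * z) := by
  rcases h with (⟨h, h'⟩ | ⟨h, h'⟩ | ⟨h, h'⟩ | ⟨h, h'⟩ | ⟨h, h'⟩ | ⟨h, h'⟩)
  · left
    exact ⟨by rw [h], by rw [abs_mul, abs_of_nonneg hl]; exact mul_le_mul_of_nonneg_left h' hl⟩
  · right; left
    exact ⟨by rw [h]; ring, by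
      rw [abs_mul, abs_of_nonneg hl, ← mul_neg]; exact mul_le_mul_of_nonneg_left h' hl⟩
  · right; right; left
    exact ⟨by rw [h], by rw [abs_mul, abs_of_nonneg hl]; exact mul_le_mul_of_nonneg_left h' hl⟩
  · right; right; right; left
    exact ⟨by rw [h]; ring, by
      rw [abs_mul, abs_of_nonneg hl, ← mul_neg]; exact mul_le_mul_of_nonneg_left h' hl⟩
  · right; right; right; right; left
    exact ⟨by rw [h], by rw [abs_mul, abs_of_nonneg hl]; exact mul_le_mul_of_nonneg_left h' hl⟩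
  · right; right; right; right; right
    exact ⟨by rw [h]; ring, by
      rw [abs_mul, abs_of_nonneg hl, ← mul_neg]; exact mul_le_mul_of_nonneg_left h' hl⟩

/-- Near the first vertex only three of the six conditions are possible. -/
private theorem Q_pos {x y z : ℝ} (hx : 0 < x) (hy : 0 < y) (hz : 0 < z) (h : Q x y z) :
    (y = z ∧ y ≤ x) ∨ (x = z ∧ x ≤ y) ∨ (x = y ∧ x ≤ z) := by
  rcases h with (⟨h, h'⟩ | ⟨h, h'⟩ | ⟨h, h'⟩ | ⟨h, h'⟩ | ⟨h, h'⟩ | ⟨h, h'⟩)
  · exact Or.inl ⟨h, (le_abs_self _).trans h'⟩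
  · linarith
  · exact Or.inr (Or.inl ⟨h, (le_abs_self _).trans h'⟩)
  · linarith
  · exact Or.inr (Or.inr ⟨h, (le_abs_self _).trans h'⟩)
  · linarith

private theorem Q_diag {a : ℝ} (ha : a ≤ 0) (h : Q a a a) : a = 0 := by
  rcases h with (⟨h, h'⟩ | ⟨h, h'⟩ | ⟨h, h'⟩ | ⟨h, h'⟩ | ⟨h, h'⟩ | ⟨h, h'⟩)
  · have := abs_nonneg a; linarith
  · linarith
  · have := abs_nonneg a; linarith
  · linarith
  · have := abs_nonneg a; linarith
  · linarith

private theorem isClosed_T : IsClosed Tcone := by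
  have hT : Tcone = {v : E3 | Q (v 0) (v 1) (v 2)} := Set.ext fun v => mem_T v
  rw [hT]
  have c : ∀ i : Fin 3, Continuous fun v : E3 => v i := fun i => by fun_prop
  have cn : ∀ i : Fin 3, Continuous fun v : E3 => -(v i) := fun i => (c i).neg
  have ca : ∀ i : Fin 3, Continuous fun v : E3 => |v i| := fun i => (c i).abs
  unfold Q
  exact ((isClosed_eq (c 1) (c 2)).inter (isClosed_le (ca 1) (c 0))).union
    (((isClosed_eq (c 1) (cn 2)).inter (isClosed_le (ca 1) (cn 0))).union
    (((isClosed_eq (c 0) (c 2)).inter (isClosed_le (ca 0) (c 1))).union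
    (((isClosed_eq (c 0) (cn 2)).inter (isClosed_le (ca 0) (cn 1))).union
    (((isClosed_eq (c 0) (c 1)).inter (isClosed_le (ca 0) (c 2))).union
    ((isClosed_eq (c 0) (cn 1)).inter (isClosed_le (ca 0) (cn 2)))))))

theorem hMDT : StMDT := by
  refine ⟨isClosed_T, ?_, ?_⟩
  · intro l hl y hy
    rw [mem_T] at hy ⊢
    exact Q_smul hl hy
  · intro w hw
    have hadd : ∀ (u : E3) (s : ℝ) (k : Fin 3), (u + s • w) k = u k + s * w k :=
      fun u s k => rfl
    -- the first vertex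
    have hu : pt 1 1 1 ∈ Tcone := by
      rw [mem_T, pt0, pt1, pt2]
      exact Or.inl ⟨rfl, by simp⟩
    have h1 : ∀ s : ℝ, Q (1 + s * w 0) (1 + s * w 1) (1 + s * w 2) := by
      intro s
      have := hw _ hu s
      rw [mem_T, hadd, hadd, hadd, pt0, pt1, pt2] at this
      exact this
    have h0 : (0 : E3) ∈ Tcone := by
      rw [mem_T]
      exact Or.inl ⟨rfl, by simp⟩
    have h2 : ∀ s : ℝ, Q (s * w 0) (s * w 1) (s * w 2) := by
      intro s
      have := hw _ h0 s
      rw [mem_T, hadd, hadd, hadd] at this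
      simpa using this
    set a := w 0 with ha
    set b := w 1 with hb
    set c := w 2 with hc
    set s : ℝ := 1 / (1 + |a| + |b| + |c|) with hs
    have hpos : 0 < 1 + |a| + |b| + |c| := by positivity
    have hs0 : 0 < s := by positivity
    have hsm : s * (1 + |a| + |b| + |c|) = 1 := by rw [hs]; field_simp
    have bd : ∀ x : ℝ, |x| ≤ |a| + |b| + |c| → -1 < s * x ∧ s * x < 1 := by
      intro x hx
      have h3 : s * |x| < 1 := by
        rw [← hsm]
        exact mul_lt_mul_of_pos_left (by linarith) hs0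
      have h4 : |s * x| < 1 := by rw [abs_mul, abs_of_pos hs0]; exact h3
      exact abs_lt.1 h4
    obtain ⟨a1, a2⟩ := bd a (by have := abs_nonneg b; have := abs_nonneg c; linarith)
    obtain ⟨b1, b2⟩ := bd b (by have := abs_nonneg a; have := abs_nonneg c; linarith)
    obtain ⟨c1, c2⟩ := bd c (by have := abs_nonneg b; have := abs_nonneg a; linarith)
    have hA := Q_pos (by linarith) (by linarith) (by linarith) (h1 s)
    have hB := Q_pos (by linarith) (by linarith) (by linarith) (h1 (-s))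
    have hab : s * a = s * b ∧ s * b = s * c := by
      rcases hA with ⟨h, h'⟩ | ⟨h, h'⟩ | ⟨h, h'⟩ <;> rcases hB with ⟨g, g'⟩ | ⟨g, g'⟩ | ⟨g, g'⟩ <;>
        constructor <;> linarith
    have hab' : a = b ∧ b = c :=
      ⟨mul_left_cancel₀ hs0.ne' hab.1, mul_left_cancel₀ hs0.ne' hab.2⟩
    have hz : a = 0 := by
      rcases le_total a 0 with h | h
      · have h3 := h2 1
        rw [one_mul, one_mul, one_mul, ← hab'.2, ← hab'.1] at h3
        exact Q_diag h h3
      · have h3 := h2 (-1)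
        rw [← hab'.2, ← hab'.1] at h3
        have h4 := Q_diag (a := -1 * a) (by linarith) h3
        linarith
    have hzb : b = 0 := by rw [← hab'.1, hz]
    have hzc : c = 0 := by rw [← hab'.2, hzb]
    exact ext3 hz hzb hzc

end Pool.Agent.Helper7.CY
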